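import Mathlib

/-!
# A symmetric, even, T0 matrix which is not the CN matrix of a pure braid projection

A braid projection on `n` strands is written as the sequence of its crossings, read from top to
bottom; a crossing is given by the number `i` (with `i + 1 < n`) of the place at which it happens: the
strands which are at this level at the places `i` and `i + 1` (counted from the left, beginning
with `0`) cross. (Crossings at the same height are moved to different heights.) The strand `s` is the
one which starts at the place `s` at the top.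
-/

set_option autoImplicit false

namespace Pool.Agent.Results.MP_550572_gt.TenStrandCounterexample

/-- The places of crossings in projections of braids with `n` strands. -/
abbrev Place (n : ℕ) : Type := {i : ℕ // i + 1 < n}

/-- A braid projection on `n` strands: the list of the places of its crossings, from top to bottom. -/
abbrev Projection (n : ℕ) : Type := List (Place n)

/-- The left one of the two places involved in a crossing. -/
def left {n : ℕ} (g : Place n) : Fin n := ⟨g.1, lt_of_le_of_lt (Nat.le_succ _) g.2⟩

/-- The right one of the two places involved in a crossing. -/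
def right {n : ℕ} (g : Place n) : Fin n := ⟨g.1 + 1, g.2⟩

/-- The arrangement of the strands below a braid projection, if their arrangement above it is `P`:
`arrangement P B p` is the strand at the place `p` (from the left); every crossing exchanges the
strands at two neighbouring places. -/
def arrangement {n : ℕ} : Equiv.Perm (Fin n) → Projection n → Equiv.Perm (Fin n)
  | P, [] => P
  | P, g :: B => arrangement (P * Equiv.swap (left g) (right g)) B

/-- The number of crossings of the strands `a` and `b` in a braid projection, if the arrangement of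
the strands above it is `P`. -/
def crossings {n : ℕ} (a b : Fin n) : Equiv.Perm (Fin n) → Projection n → ℕ
  | _, [] => 0
  | P, g :: B =>
      (if (P (left g) = a ∧ P (right g) = b) ∨ (P (left g) = b ∧ P (right g) = a) then 1 else 0) +
        crossings a b (P * Equiv.swap (left g) (right g)) B

/-- A braid projection is pure if every strand ends at the place where it starts. -/
def Pure {n : ℕ} (B : Projection n) : Prop := arrangement 1 B = 1

/-- The CN matrix of a braid projection: the diagonal is zero, and the entry `(a, b)`, `a ≠ b`, is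
the number of crossings of the strands `a` and `b`. -/
def cnMatrix {n : ℕ} (B : Projection n) : Matrix (Fin n) (Fin n) ℕ :=
  Matrix.of fun a b => if a = b then 0 else crossings a b 1 B

/-- `M` has zero diagonal, and `M i j = 0` and `M j k = 0` imply `M i k = 0` for `i < j < k`. -/
def IsT0 {n : ℕ} (M : Matrix (Fin n) (Fin n) ℕ) : Prop :=
  (∀ i, M i i = 0) ∧ ∀ i j k, i < j → j < k → M i j = 0 → M j k = 0 → M i k = 0

/-- The strand `b` is to the left of the strand `a` in the arrangement `P`. -/
def Before {n : ℕ} (P : Equiv.Perm (Fin n)) (b a : Fin n) : Prop := P.symm b < P.symm a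

theorem before_asymm {n : ℕ} {P : Equiv.Perm (Fin n)} {a b : Fin n} (h : Before P a b) :
    ¬ Before P b a := not_lt_of_gt h

theorem before_total {n : ℕ} (P : Equiv.Perm (Fin n)) {a b : Fin n} (h : a ≠ b) :
    Before P a b ∨ Before P b a := by
  unfold Before
  rcases lt_trichotomy (P.symm a) (P.symm b) with h' | h' | h'
  · exact Or.inl h'
  · exact absurd (P.symm.injective h') h
  · exact Or.inr h'

theorem arrangement_append {n : ℕ} (B C : Projection n) : ∀ P : Equiv.Perm (Fin n),
    arrangement P (B ++ C) = arrangement (arrangement P B) C := by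
  induction B with
  | nil => intro P; rfl
  | cons g B ih => intro P; exact ih _

theorem crossings_append {n : ℕ} (a b : Fin n) (B C : Projection n) :
    ∀ P : Equiv.Perm (Fin n),
    crossings a b P (B ++ C) = crossings a b P B + crossings a b (arrangement P B) C := by
  induction B with
  | nil => intro P; simp [crossings, arrangement]
  | cons g B ih =>
    intro P
    simp only [List.cons_append, crossings, arrangement, ih]
    ring

theorem left_ne_right {n : ℕ} (g : Place n) : left g ≠ right g := by
  intro h
  have := congrArg Fin.val h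
  simp [left, right] at this

/-- If a crossing is not one of `a` and `b`, then the relative position of `a` and `b` does not
change. -/
theorem before_step {n : ℕ} (P : Equiv.Perm (Fin n)) (g : Place n) (a b : Fin n) (hab : a ≠ b)
    (h : ¬ ((P (left g) = a ∧ P (right g) = b) ∨ (P (left g) = b ∧ P (right g) = a))) :
    Before (P * Equiv.swap (left g) (right g)) a b ↔ Before P a b := by
  have key : ∀ x, (P * Equiv.swap (left g) (right g)).symm x =
      Equiv.swap (left g) (right g) (P.symm x) := by
    intro x
    rw [Equiv.symm_apply_eq]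
    simp
  unfold Before
  rw [key, key]
  have ha : P (P.symm a) = a := P.apply_symm_apply a
  have hb : P (P.symm b) = b := P.apply_symm_apply b
  have hne : P.symm a ≠ P.symm b := fun h => hab (P.symm.injective h)
  generalize P.symm a = x at ha hne
  generalize P.symm b = y at hb hne
  subst ha hb
  have hl : (left g).val = g.1 := rfl
  have hr : (right g).val = g.1 + 1 := rfl
  have h1 : ¬ (left g = x ∧ right g = y) := fun h' => h (Or.inl ⟨by rw [h'.1], by rw [h'.2]⟩)
  have h2 : ¬ (left g = y ∧ right g = x) := fun h' => h (Or.inr ⟨by rw [h'.1], by rw [h'.2]⟩)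
  rcases eq_or_ne x (left g) with hx | hx
  · rcases eq_or_ne y (right g) with hy | hy
    · exact absurd ⟨hx.symm, hy.symm⟩ h1
    · have hy' : y ≠ left g := fun h' => hne (hx.trans h'.symm)
      rw [hx, Equiv.swap_apply_left, Equiv.swap_apply_of_ne_of_ne hy' hy]
      have e1 : y.val ≠ g.1 := fun h' => hy' (Fin.ext (h'.trans hl.symm))
      have e2 : y.val ≠ g.1 + 1 := fun h' => hy (Fin.ext (h'.trans hr.symm))
      rw [Fin.lt_def, Fin.lt_def, hl, hr]
      omega
  · rcases eq_or_ne x (right g) with hx' | hx'
    · rcases eq_or_ne y (left g) with hy | hy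
      · exact absurd ⟨hy.symm, hx'.symm⟩ h2
      · have hy' : y ≠ right g := fun h' => hne (hx'.trans h'.symm)
        rw [hx', Equiv.swap_apply_right, Equiv.swap_apply_of_ne_of_ne hy hy']
        have e1 : y.val ≠ g.1 := fun h' => hy (Fin.ext (h'.trans hl.symm))
        have e2 : y.val ≠ g.1 + 1 := fun h' => hy' (Fin.ext (h'.trans hr.symm))
        rw [Fin.lt_def, Fin.lt_def, hl, hr]
        omega
    · rw [Equiv.swap_apply_of_ne_of_ne hx hx']
      have e1 : x.val ≠ g.1 := fun h' => hx (Fin.ext (h'.trans hl.symm))
      have e2 : x.val ≠ g.1 + 1 := fun h' => hx' (Fin.ext (h'.trans hr.symm))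
      rcases eq_or_ne y (left g) with hy | hy
      · rw [hy, Equiv.swap_apply_left, Fin.lt_def, Fin.lt_def, hl, hr]
        omega
      · rcases eq_or_ne y (right g) with hy' | hy'
        · rw [hy', Equiv.swap_apply_right, Fin.lt_def, Fin.lt_def, hl, hr]
          omega
        · rw [Equiv.swap_apply_of_ne_of_ne hy hy']

/-- A crossing of `a` and `b` exchanges their relative position. -/
theorem before_cross {n : ℕ} (P : Equiv.Perm (Fin n)) (g : Place n) (a b : Fin n)
    (h : (P (left g) = a ∧ P (right g) = b) ∨ (P (left g) = b ∧ P (right g) = a)) :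
    Before (P * Equiv.swap (left g) (right g)) a b ↔ Before P b a := by
  have key : ∀ x, (P * Equiv.swap (left g) (right g)).symm x =
      Equiv.swap (left g) (right g) (P.symm x) := by
    intro x
    rw [Equiv.symm_apply_eq]
    simp
  unfold Before
  rw [key, key]
  rcases h with ⟨h1, h2⟩ | ⟨h1, h2⟩
  · rw [← h1, ← h2]
    simp
  · rw [← h1, ← h2]
    simp

/-- If the relative position of `a` and `b` changes, then they cross. -/
theorem crossings_pos {n : ℕ} (a b : Fin n) (hab : a ≠ b) (B : Projection n) :
    ∀ P : Equiv.Perm (Fin n), ¬ (Before (arrangement P B) a b ↔ Before P a b) →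
      1 ≤ crossings a b P B := by
  induction B with
  | nil => intro P h; exact absurd Iff.rfl h
  | cons g B ih =>
    intro P h
    simp only [crossings]
    by_cases hc : (P (left g) = a ∧ P (right g) = b) ∨ (P (left g) = b ∧ P (right g) = a)
    · rw [if_pos hc]
      omega
    · have h2 := ih (P * Equiv.swap (left g) (right g)) (fun h' =>
        h (h'.trans (before_step P g a b hab hc)))
      omega

/-- If `a` and `b` cross, then at some level `b` is to the left of `a`. -/
theorem exists_reversed {n : ℕ} (a b : Fin n) (hab : a ≠ b) (B : Projection n) :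
    ∀ P : Equiv.Perm (Fin n), 1 ≤ crossings a b P B →
      ∃ C D, B = C ++ D ∧ Before (arrangement P C) b a := by
  induction B with
  | nil => intro P h; simp [crossings] at h
  | cons g B ih =>
    intro P h
    simp only [crossings] at h
    by_cases hc : (P (left g) = a ∧ P (right g) = b) ∨ (P (left g) = b ∧ P (right g) = a)
    · rcases before_total P hab with h' | h'
      · refine ⟨[g], B, rfl, ?_⟩
        show Before (P * Equiv.swap (left g) (right g)) b a
        exact (before_cross P g b a (by tauto)).2 h'
      · exact ⟨[], g :: B, rfl, h'⟩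
    · rw [if_neg hc] at h
      obtain ⟨C, D, h1, h2⟩ := ih (P * Equiv.swap (left g) (right g)) (by omega)
      exact ⟨g :: C, D, by rw [h1]; rfl, h2⟩

/-- The strands `a < b` which do not cross are always in the same order. -/
theorem always_before {n : ℕ} (B : Projection n) (a b : Fin n) (hab : a < b)
    (h : cnMatrix B a b = 0) (C D : Projection n) (hB : B = C ++ D) :
    Before (arrangement 1 C) a b := by
  by_contra hc
  have h0 : crossings a b 1 B = 0 := by
    have := h
    simp only [cnMatrix, Matrix.of_apply, if_neg hab.ne] at this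
    exact this
  rw [hB, crossings_append] at h0
  have h1 := crossings_pos a b hab.ne C 1 (fun h' => hc (h'.2 hab))
  omega

/-- For strands `a < b` which cross exactly twice in a pure projection, the levels at which `b` is
to the left of `a` form an interval. -/
theorem convex {n : ℕ} (B : Projection n) (hB : Pure B) (a b : Fin n) (hab : a < b)
    (h : cnMatrix B a b = 2) (C D E F : Projection n) (hC : B = C ++ (D ++ (E ++ F)))
    (h1 : Before (arrangement 1 C) b a)
    (h3 : Before (arrangement 1 (C ++ (D ++ E))) b a) :
    Before (arrangement 1 (C ++ D)) b a := by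
  by_contra h2
  have h0 : crossings a b 1 B = 2 := by
    have := h
    simp only [cnMatrix, Matrix.of_apply, if_neg hab.ne] at this
    exact this
  have s0 : Before (1 : Equiv.Perm (Fin n)) a b := hab
  have s2 : Before (arrangement 1 (C ++ D)) a b := (before_total _ hab.ne).resolve_right h2
  have s4 : Before (arrangement 1 B) a b := by
    rw [hB]
    exact s0
  rw [hC, crossings_append, crossings_append, crossings_append] at h0
  rw [hC] at s4
  simp only [arrangement_append] at h1 h3 s2 s4
  have k1 := crossings_pos a b hab.ne C 1 (fun h' => before_asymm h1 (h'.2 s0))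
  have k2 := crossings_pos a b hab.ne D (arrangement 1 C) (fun h' => before_asymm h1 (h'.1 s2))
  have k3 := crossings_pos a b hab.ne E (arrangement (arrangement 1 C) D)
    (fun h' => before_asymm h3 (h'.2 s2))
  have k4 := crossings_pos a b hab.ne F (arrangement (arrangement (arrangement 1 C) D) E)
    (fun h' => before_asymm h3 (h'.1 s4))
  omega

/-- The pairs `i < j` of strands which do not cross in the counterexample (numbered `0` to `9`). -/
def zeros : List (ℕ × ℕ) :=
  [(0, 2), (0, 4), (0, 7), (0, 8), (0, 9), (1, 2), (1, 5), (1, 6), (1, 8), (2, 8), (3, 4), (3, 6),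
    (3, 9), (4, 9), (5, 6), (5, 8), (7, 8), (7, 9)]

/-- The matrix with entry `2` for all pairs of different indices below `10` which are not in the
list `zeros`, and `0` everywhere else. -/
def counterexample (n : ℕ) : Matrix (Fin n) (Fin n) ℕ :=
  Matrix.of fun i j =>
    if i.1 < 10 ∧ j.1 < 10 ∧ i ≠ j ∧ (i.1, j.1) ∉ zeros ∧ (j.1, i.1) ∉ zeros then 2 else 0

theorem counterexample_symm (n : ℕ) : (counterexample n).IsSymm := by
  ext i j
  simp only [counterexample, Matrix.transpose_apply, Matrix.of_apply]
  congr 1
  simp only [eq_iff_iff, ne_eq]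
  constructor
  · rintro ⟨h1, h2, h3, h4, h5⟩
    exact ⟨h2, h1, fun h => h3 h.symm, h5, h4⟩
  · rintro ⟨h1, h2, h3, h4, h5⟩
    exact ⟨h2, h1, fun h => h3 h.symm, h5, h4⟩

theorem counterexample_even (n : ℕ) (i j : Fin n) : Even (counterexample n i j) := by
  simp only [counterexample, Matrix.of_apply]
  split_ifs
  · exact even_two
  · exact Even.zero

theorem zeros_trans : ∀ i j k : Fin 10, i.1 < j.1 → j.1 < k.1 →
    ((i.1, j.1) ∈ zeros ∨ (j.1, i.1) ∈ zeros) → ((j.1, k.1) ∈ zeros ∨ (k.1, j.1) ∈ zeros) →
    ((i.1, k.1) ∈ zeros ∨ (k.1, i.1) ∈ zeros) := by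
  decide +kernel

theorem counterexample_T0 (n : ℕ) : IsT0 (counterexample n) := by
  refine ⟨fun i => ?_, fun i j k hij hjk h1 h2 => ?_⟩
  · simp [counterexample]
  · simp only [counterexample, Matrix.of_apply] at h1 h2 ⊢
    rw [if_neg]
    rintro ⟨hi, hk, hne, hz1, hz2⟩
    have hij' : i.1 < j.1 := hij
    have hjk' : j.1 < k.1 := hjk
    have hj : j.1 < 10 := by omega
    have e1 : ¬ (i.1 < 10 ∧ j.1 < 10 ∧ i ≠ j ∧ (i.1, j.1) ∉ zeros ∧ (j.1, i.1) ∉ zeros) := by
      intro h
      rw [if_pos h] at h1
      exact absurd h1 (by norm_num)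
    have e2 : ¬ (j.1 < 10 ∧ k.1 < 10 ∧ j ≠ k ∧ (j.1, k.1) ∉ zeros ∧ (k.1, j.1) ∉ zeros) := by
      intro h
      rw [if_pos h] at h2
      exact absurd h2 (by norm_num)
    have f1 : (i.1, j.1) ∈ zeros ∨ (j.1, i.1) ∈ zeros := by
      by_contra h
      push Not at h
      exact e1 ⟨hi, hj, hij.ne, h.1, h.2⟩
    have f2 : (j.1, k.1) ∈ zeros ∨ (k.1, j.1) ∈ zeros := by
      by_contra h
      push Not at h
      exact e2 ⟨hj, hk, hjk.ne, h.1, h.2⟩
    rcases zeros_trans ⟨i.1, hi⟩ ⟨j.1, hj⟩ ⟨k.1, hk⟩ hij' hjk' f1 f2 with h | h
    · exact hz1 h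
    · exact hz2 h

/-- Two prefixes of a list are comparable. -/
theorem compare {α : Type} {C D E F : List α} (h : C ++ D = E ++ F) :
    (∃ G, E = C ++ G ∧ D = G ++ F) ∨ (∃ G, C = E ++ G ∧ F = G ++ D) := by
  rcases List.append_eq_append_iff.1 h with ⟨G, h1, h2⟩ | ⟨G, h1, h2⟩
  · exact Or.inl ⟨G, h1, h2⟩
  · exact Or.inr ⟨G, h1, h2⟩

/-- Among three levels one is in the middle. -/
theorem middle {n : ℕ} (B : Projection n) (hB : Pure B) (a b : Fin n) (hab : a < b)
    (h : cnMatrix B a b = 2) (C D E E' : Projection n) (hE : B = E ++ E')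
    (hCD : ∃ G, D = C ++ G) (hDE : ∃ G, E = D ++ G)
    (h1 : Before (arrangement 1 C) b a) (h3 : Before (arrangement 1 E) b a) :
    Before (arrangement 1 D) b a := by
  obtain ⟨G, rfl⟩ := hCD
  obtain ⟨H, rfl⟩ := hDE
  refine convex B hB a b hab h C G H E' ?_ h1 ?_
  · rw [hE]
    simp [List.append_assoc]
  · rw [List.append_assoc] at h3
    exact h3

theorem not_realisable {n : ℕ} (hn : 10 ≤ n) (B : Projection n) (hB : Pure B) :
    cnMatrix B ≠ counterexample n := by
  intro hM
  let s : Fin 10 → Fin n := fun i => ⟨i.1, by omega⟩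
  have sne : ∀ i j : Fin 10, i ≠ j → s i ≠ s j := fun i j h e =>
    h (Fin.ext (show (s i).1 = (s j).1 from congrArg Fin.val e))
  -- entries of the matrix
  have ent0 : ∀ i j : Fin 10, (i.1, j.1) ∈ zeros → cnMatrix B (s i) (s j) = 0 := by
    intro i j h
    rw [hM]
    simp only [counterexample, Matrix.of_apply]
    rw [if_neg]
    rintro ⟨_, _, _, h', _⟩
    exact h' h
  have ent2 : ∀ i j : Fin 10, i ≠ j → (i.1, j.1) ∉ zeros → (j.1, i.1) ∉ zeros →
      cnMatrix B (s i) (s j) = 2 := by
    intro i j h h' h''
    rw [hM]
    simp only [counterexample, Matrix.of_apply]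
    rw [if_pos]
    exact ⟨i.2, j.2, sne i j h, h', h''⟩
  -- order relations valid at all levels
  have ord : ∀ i j : Fin 10, i.1 < j.1 → (i.1, j.1) ∈ zeros →
      ∀ C D, B = C ++ D → Before (arrangement 1 C) (s i) (s j) := by
    intro i j hij h C D hCD
    exact always_before B (s i) (s j) hij (ent0 i j h) C D hCD
  have lt : ∀ {P : Equiv.Perm (Fin n)} {a b c : Fin n}, Before P a b → Before P b c →
      Before P a c := fun h h' => lt_trans h h'
  have ex : ∀ i j : Fin 10, i ≠ j → (i.1, j.1) ∉ zeros → (j.1, i.1) ∉ zeros →
      ∃ C D, B = C ++ D ∧ Before (arrangement 1 C) (s j) (s i) := by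
    intro i j hij h h'
    refine exists_reversed (s i) (s j) (sne i j hij) B 1 ?_
    have := ent2 i j hij h h'
    simp only [cnMatrix, Matrix.of_apply, if_neg (sne i j hij)] at this
    omega
  obtain ⟨A, A', hA, tA⟩ := ex 1 9 (by decide) (by decide) (by decide)
  obtain ⟨C, C', hC, tC⟩ := ex 0 6 (by decide) (by decide) (by decide)
  obtain ⟨D, D', hD, tD⟩ := ex 3 8 (by decide) (by decide) (by decide)
  -- the pair (4, 5)
  have yD : Before (arrangement 1 D) (s 5) (s 4) :=
    lt (ord 5 8 (by decide) (by decide) D D' hD) (lt tD (ord 3 4 (by decide) (by decide) D D' hD))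
  have yC : Before (arrangement 1 C) (s 5) (s 4) :=
    lt (ord 5 6 (by decide) (by decide) C C' hC) (lt tC (ord 0 4 (by decide) (by decide) C C' hC))
  have yA : Before (arrangement 1 A) (s 4) (s 5) :=
    lt (ord 4 9 (by decide) (by decide) A A' hA) (lt tA (ord 1 5 (by decide) (by decide) A A' hA))
  -- the pair (2, 3)
  have zA : Before (arrangement 1 A) (s 3) (s 2) :=
    lt (ord 3 9 (by decide) (by decide) A A' hA) (lt tA (ord 1 2 (by decide) (by decide) A A' hA))
  have zC : Before (arrangement 1 C) (s 3) (s 2) :=
    lt (ord 3 6 (by decide) (by decide) C C' hC) (lt tC (ord 0 2 (by decide) (by decide) C C' hC))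
  have zD : Before (arrangement 1 D) (s 2) (s 3) :=
    lt (ord 2 8 (by decide) (by decide) D D' hD) tD
  -- the pair (6, 7)
  have xA : Before (arrangement 1 A) (s 7) (s 6) :=
    lt (ord 7 9 (by decide) (by decide) A A' hA) (lt tA (ord 1 6 (by decide) (by decide) A A' hA))
  have xD : Before (arrangement 1 D) (s 7) (s 6) :=
    lt (ord 7 8 (by decide) (by decide) D D' hD) (lt tD (ord 3 6 (by decide) (by decide) D D' hD))
  have xC : Before (arrangement 1 C) (s 6) (s 7) :=
    lt tC (ord 0 7 (by decide) (by decide) C C' hC)
  have m45 := ent2 4 5 (by decide) (by decide) (by decide)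
  have m23 := ent2 2 3 (by decide) (by decide) (by decide)
  have m67 := ent2 6 7 (by decide) (by decide) (by decide)
  have l45 : s 4 < s 5 := by
    show (4 : ℕ) < 5
    norm_num
  have l23 : s 2 < s 3 := by
    show (2 : ℕ) < 3
    norm_num
  have l67 : s 6 < s 7 := by
    show (6 : ℕ) < 7
    norm_num
  -- the middle level
  have mA1 := middle B hB _ _ l45 m45 C A D D' hD
  have mA2 := middle B hB _ _ l45 m45 D A C C' hC
  have mC1 := middle B hB _ _ l67 m67 A C D D' hD
  have mC2 := middle B hB _ _ l67 m67 D C A A' hA
  have mD1 := middle B hB _ _ l23 m23 A D C C' hC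
  have mD2 := middle B hB _ _ l23 m23 C D A A' hA
  have cAC : (∃ G, C = A ++ G) ∨ (∃ G, A = C ++ G) := by
    rcases compare (hA.symm.trans hC) with ⟨G, h, _⟩ | ⟨G, h, _⟩
    · exact Or.inl ⟨G, h⟩
    · exact Or.inr ⟨G, h⟩
  have cAD : (∃ G, D = A ++ G) ∨ (∃ G, A = D ++ G) := by
    rcases compare (hA.symm.trans hD) with ⟨G, h, _⟩ | ⟨G, h, _⟩
    · exact Or.inl ⟨G, h⟩
    · exact Or.inr ⟨G, h⟩
  have cCD : (∃ G, D = C ++ G) ∨ (∃ G, C = D ++ G) := by
    rcases compare (hC.symm.trans hD) with ⟨G, h, _⟩ | ⟨G, h, _⟩
    · exact Or.inl ⟨G, h⟩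
    · exact Or.inr ⟨G, h⟩
  rcases cAC with h1 | h1
  · rcases cAD with h2 | h2
    · rcases cCD with h3 | h3
      · exact before_asymm (mC1 h1 h3 xA xD) xC
      · exact before_asymm (mD1 h2 h3 zA zC) zD
    · exact before_asymm (mA2 h2 h1 yD yC) yA
  · rcases cAD with h2 | h2
    · exact before_asymm (mA1 h1 h2 yC yD) yA
    · rcases cCD with h3 | h3
      · exact before_asymm (mD2 h3 h2 zC zA) zD
      · exact before_asymm (mC2 h3 h1 xD xA) xC

/-- For every `n ≥ 10` the symmetric, even, T0 matrix `counterexample n` with entries `0` and `2` is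
not the CN matrix of a pure braid projection.  Hence it is not true that for every `n ≥ 1` the CN
matrices of the pure `n`-braid projections are exactly the symmetric, even, T0 matrices. -/
theorem result :
    (∀ n : ℕ, 10 ≤ n →
      (counterexample n).IsSymm ∧ (∀ i j, Even (counterexample n i j)) ∧ IsT0 (counterexample n) ∧
        ¬ ∃ B : Projection n, Pure B ∧ cnMatrix B = counterexample n) ∧
    ¬ (∀ n : ℕ, 1 ≤ n → ∀ M : Matrix (Fin n) (Fin n) ℕ,
      (∃ B : Projection n, Pure B ∧ cnMatrix B = M) ↔
        M.IsSymm ∧ (∀ i j, Even (M i j)) ∧ IsT0 M) := by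
  have h : ∀ n : ℕ, 10 ≤ n →
      (counterexample n).IsSymm ∧ (∀ i j, Even (counterexample n i j)) ∧ IsT0 (counterexample n) ∧
        ¬ ∃ B : Projection n, Pure B ∧ cnMatrix B = counterexample n := by
    intro n hn
    refine ⟨counterexample_symm n, counterexample_even n, counterexample_T0 n, ?_⟩
    rintro ⟨B, hB, hM⟩
    exact not_realisable hn B hB hM
  refine ⟨h, fun h' => ?_⟩
  obtain ⟨h1, h2, h3, h4⟩ := h 10 le_rfl
  exact h4 ((h' 10 (by norm_num) (counterexample 10)).2 ⟨h1, h2, h3⟩)

end Pool.Agent.Results.MP_550572_gt.TenStrandCounterexample
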